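import Pool.Agent.W845.DH.Stm

set_option autoImplicit false
open scoped Classical
open scoped BigOperators

namespace Pool.Agent.W439.DH

open Pool.Agent.W845.DH

lemma od_univ_le {n : ℕ} (D : Fin n → Fin n → Prop) (v : Fin n) (T : Finset (Fin n)) :
    od D v Finset.univ + T.card ≤ od D v T + n := by
  have h : (Finset.univ.filter (fun w => D v w)) ⊆ T.filter (fun w => D v w) ∪ Tᶜ := by
    intro w hw
    rw [Finset.mem_filter] at hw
    rw [Finset.mem_union, Finset.mem_filter, Finset.mem_compl]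
    by_cases hT : w ∈ T
    · exact Or.inl ⟨hT, hw.2⟩
    · exact Or.inr hT
  have h1 := (Finset.card_le_card h).trans (Finset.card_union_le _ _)
  have h2 : Tᶜ.card + T.card = n := by
    rw [add_comm, Finset.card_add_card_compl, Fintype.card_fin]
  unfold od
  omega

lemma idg_univ_le {n : ℕ} (D : Fin n → Fin n → Prop) (v : Fin n) (S : Finset (Fin n)) :
    idg D v Finset.univ + S.card ≤ idg D v S + n := by
  have h : (Finset.univ.filter (fun w => D w v)) ⊆ S.filter (fun w => D w v) ∪ Sᶜ := by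
    intro w hw
    rw [Finset.mem_filter] at hw
    rw [Finset.mem_union, Finset.mem_filter, Finset.mem_compl]
    by_cases hT : w ∈ S
    · exact Or.inl ⟨hT, hw.2⟩
    · exact Or.inr hT
  have h1 := (Finset.card_le_card h).trans (Finset.card_union_le _ _)
  have h2 : Sᶜ.card + S.card = n := by
    rw [add_comm, Finset.card_add_card_compl, Fintype.card_fin]
  unfold idg
  omega

lemma ee_eq {V : Type} (D : V → V → Prop) (S T : Finset V) :
    ee D S T = ∑ v ∈ S, od D v T := by
  unfold ee od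
  simp only [Finset.card_filter]
  rw [Finset.sum_product]

lemma ee_eq' {V : Type} (D : V → V → Prop) (S T : Finset V) :
    ee D S T = ∑ w ∈ T, idg D w S := by
  unfold ee idg
  simp only [Finset.card_filter]
  rw [Finset.sum_product_right]

lemma ee_lower {n : ℕ} (η : ℝ) (D : Fin n → Fin n → Prop) (S T : Finset (Fin n))
    (hD : Deg ((n : ℝ) / 2 - η) D) :
    (S.card : ℝ) * ((T.card : ℝ) - n / 2 - η) ≤ ee D S T := by
  rw [ee_eq, Nat.cast_sum, ← nsmul_eq_mul]
  apply Finset.card_nsmul_le_sum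
  intro v _
  have h1 := (hD v).1
  have h2 : ((od D v Finset.univ + T.card : ℕ) : ℝ) ≤ ((od D v T + n : ℕ) : ℝ) :=
    Nat.cast_le.2 (od_univ_le D v T)
  push_cast at h2
  linarith

lemma ee_lower' {n : ℕ} (η : ℝ) (D : Fin n → Fin n → Prop) (S T : Finset (Fin n))
    (hD : Deg ((n : ℝ) / 2 - η) D) :
    (T.card : ℝ) * ((S.card : ℝ) - n / 2 - η) ≤ ee D S T := by
  rw [ee_eq', Nat.cast_sum, ← nsmul_eq_mul]
  apply Finset.card_nsmul_le_sum
  intro v _
  have h1 := (hD v).2
  have h2 : ((idg D v Finset.univ + S.card : ℕ) : ℝ) ≤ ((idg D v S + n : ℕ) : ℝ) :=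
    Nat.cast_le.2 (idg_univ_le D v S)
  push_cast at h2
  linarith

lemma part_lam {n : ℕ} {D : Fin n → Fin n → Prop} {S T : Finset (Fin n)}
    (h : Part (1 / 256) (80 * (1 / 2 ^ 33)) D S T) :
    Part (32 * (1 / 8192)) ((1 / 8192) ^ 2) D S T := by
  obtain ⟨h1, h2, h3, h4, h5⟩ := h
  have e : (32 * (1 / 8192) : ℝ) = 1 / 256 := by norm_num
  rw [e]
  refine ⟨h1, h2, h3, h4, h5.trans ?_⟩
  apply mul_le_mul_of_nonneg_right _ (by positivity)
  norm_num

lemma ue {α : Type} (inst : DecidableEq α) (F : Finset α) :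
    @Union.union (Finset α) (@Finset.instUnion α inst) F ∅ = F :=
  @Finset.union_empty α inst F

/-- The last step: given the prescribed arcs. -/
lemma last_step {N0 : ℕ} {n : ℕ}
    (hN0 : ∀ (V : Type) [Fintype V]
      (D G : V → V → Prop) (S T : Finset V) (F1 F2 : Finset (V × V)), N0 ≤ Fintype.card V →
      (∀ u v, D u v → G u v) → Part (32 * (1 / 8192)) ((1 / 8192) ^ 2) D S T →
      (Fintype.card V : ℝ) / 4 ≤ (S.card : ℝ) → (S.card : ℝ) ≤ 3 / 4 * (Fintype.card V : ℝ) →
      (Fintype.card V : ℝ) / 4 ≤ (T.card : ℝ) → (T.card : ℝ) ≤ 3 / 4 * (Fintype.card V : ℝ) →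
      VDs (F1 ∪ F2) → (∀ e ∈ F1 ∪ F2, G e.1 e.2) →
      ((F1 ∪ F2).card : ℝ) ≤ 4 * (1 / 8192) * Fintype.card V →
      (∀ e ∈ F1, e.1 ∈ S ∧ e.2 ∈ T) → (∀ e ∈ F2, e.1 ∉ S ∧ e.2 ∉ T) →
      F1.card + Fintype.card V = F2.card + S.card + T.card →
      ((∃ v, v ∈ S ∧ v ∈ T ∧ v ∉ vs (F1 ∪ F2)) ∨ (∃ v, v ∉ S ∧ v ∉ T ∧ v ∉ vs (F1 ∪ F2)) ∨
        (∃ e ∈ F1, e.1 ∉ T ∧ e.2 ∉ S)) → HamD G)
    (D G : Fin n → Fin n → Prop) (S T : Finset (Fin n)) (F : Finset (Fin n × Fin n))
    (hn : N0 ≤ n) (hDG : ∀ u v, D u v → G u v) (hS : Str (1 / 2 ^ 33) D S T)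
    (hF : VDs F) (hG : ∀ e ∈ F, G e.1 e.2) (hST : ∀ e ∈ F, e.1 ∈ S ∧ e.2 ∈ T)
    (hc : F.card + n = S.card + T.card) (hex : ∃ e ∈ F, e.1 ∉ T ∧ e.2 ∉ S) : HamD G := by
  obtain ⟨hP, hS1, hT1, hle, hsum, -⟩ := hS
  rw [Fintype.card_fin] at hS1 hT1 hle hsum
  have hn0 : (0 : ℝ) ≤ n := Nat.cast_nonneg n
  rw [abs_le] at hS1 hT1
  have hcr : (F.card : ℝ) + n = S.card + T.card := by exact_mod_cast hc
  apply hN0 (Fin n) D G S T F ∅ (by rw [Fintype.card_fin]; exact hn) hDG (part_lam hP)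
  · rw [Fintype.card_fin]; norm_num at hS1 ⊢; linarith [hS1.1]
  · rw [Fintype.card_fin]; norm_num at hS1 ⊢; linarith [hS1.2]
  · rw [Fintype.card_fin]; norm_num at hT1 ⊢; linarith [hT1.1]
  · rw [Fintype.card_fin]; norm_num at hT1 ⊢; linarith [hT1.2]
  · rw [ue _ F]; exact hF
  · rw [ue _ F]; exact hG
  · rw [ue _ F, Fintype.card_fin]; norm_num at hsum ⊢; linarith
  · exact hST
  · intro e he; exact absurd he (Finset.notMem_empty e)
  · rw [Finset.card_empty, Fintype.card_fin]; omega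
  · exact Or.inr (Or.inr hex)

theorem fsb : S_H → S_DM → S_FSB := by
  intro hH hDM
  obtain ⟨N0, hN0⟩ := hH (1 / 8192) (by norm_num) (by norm_num)
  refine ⟨max N0 1, fun n η D S T hn hloop hη hDeg hStr hlt hcap => ?_⟩
  have hn1 : 1 ≤ n := (le_max_right _ _).trans hn
  have hnN : N0 ≤ n := (le_max_left _ _).trans hn
  have hnr : (1 : ℝ) ≤ n := by exact_mod_cast hn1
  obtain ⟨hP, hS1, hT1, hle, hsum, hflex⟩ := id hStr
  rw [Fintype.card_fin] at hS1 hT1 hle hsum hflex
  rw [abs_le] at hS1 hT1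
  have hflex' : NoFlex (1 / 128) D S T := by
    rcases hflex with h | h
    · omega
    · exact h
  obtain ⟨k, hk⟩ : ∃ k, S.card + T.card = n + k := ⟨S.card + T.card - n, by omega⟩
  have hk1 : 1 ≤ k := by omega
  have hkr : (S.card : ℝ) + T.card = n + k := by exact_mod_cast hk
  have hk1r : (1 : ℝ) ≤ k := by exact_mod_cast hk1
  have hcap' : (S ∩ T).card ≤ 2 * k := by omega
  have hcapr : ((S ∩ T).card : ℝ) ≤ 2 * k := by exact_mod_cast hcap'
  have hS1' : (49 / 100 : ℝ) * n ≤ S.card := by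
    norm_num at hS1
    linarith [hS1.1]
  have hT1' : (49 / 100 : ℝ) * n ≤ T.card := by
    norm_num at hT1
    linarith [hT1.1]
  have hkn : (k : ℝ) ≤ 1 / 1000 * n := by
    norm_num at hsum
    linarith
  have hcX : (S \ T).card + (S ∩ T).card = S.card := Finset.card_sdiff_add_card_inter S T
  have hcY : (T \ S).card + (T ∩ S).card = T.card := Finset.card_sdiff_add_card_inter T S
  have hcXr : ((S \ T).card : ℝ) + (S ∩ T).card = S.card := by exact_mod_cast hcX
  have hcYr : ((T \ S).card : ℝ) + (S ∩ T).card = T.card := by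
    rw [Finset.inter_comm S T]
    exact_mod_cast hcY
  refine ⟨S \ T, T \ S, ?_, by linarith, by linarith, ?_⟩
  · rw [Finset.disjoint_left]
    intro a ha hb
    exact (Finset.mem_sdiff.1 ha).2 (Finset.mem_sdiff.1 hb).1
  intro R hM1 _
  obtain ⟨M, hMR, hVM, hMe, hMc⟩ := hM1
  by_cases hkη : (k : ℝ) ≤ 10 * η
  · have hkM : k ≤ M.card := by
      have : (k : ℝ) ≤ M.card := hkη.trans hMc
      exact_mod_cast this
    obtain ⟨F, hFM, hFk⟩ := Finset.exists_subset_card_eq hkM
    refine last_step hN0 D _ S T F hnN (fun u v h => Or.inl h) hStr ?_ ?_ ?_ ?_ ?_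
    · exact ⟨fun e he => hVM.1 e (hFM he), fun e he f hf => hVM.2 e (hFM he) f (hFM hf)⟩
    · intro e he
      exact Or.inr (hMR (hFM he))
    · intro e he
      exact ⟨(Finset.mem_sdiff.1 (hMe e (hFM he)).1).1, (Finset.mem_sdiff.1 (hMe e (hFM he)).2).1⟩
    · omega
    · have : F.Nonempty := by
        rw [← Finset.card_pos]
        omega
      obtain ⟨e, he⟩ := this
      exact ⟨e, he, (Finset.mem_sdiff.1 (hMe e (hFM he)).1).2,
        (Finset.mem_sdiff.1 (hMe e (hFM he)).2).2⟩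
  · push Not at hkη
    have hMne : M.Nonempty := by
      rw [← Finset.card_pos]
      have : (0 : ℝ) < M.card := by linarith
      exact_mod_cast this
    obtain ⟨f0, hf0⟩ := hMne
    have hee : (k : ℝ) * n / 32 < ee D S T := by
      have e1 := ee_lower η D S T hDeg
      have e2 := ee_lower' η D S T hDeg
      have hnpos : (0 : ℝ) < n := by linarith
      have hkn0 : (0 : ℝ) < k * n := by positivity
      rcases le_total ((k : ℝ) / 2) ((T.card : ℝ) - n / 2) with h | h
      · have h1 : (2 / 5 : ℝ) * k ≤ (T.card : ℝ) - n / 2 - η := by linarith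
        have h2 : (49 / 100 : ℝ) * n * (2 / 5 * k) ≤ (S.card : ℝ) * ((T.card : ℝ) - n / 2 - η) :=
          mul_le_mul hS1' h1 (by positivity) (Nat.cast_nonneg _)
        nlinarith
      · have h1 : (2 / 5 : ℝ) * k ≤ (S.card : ℝ) - n / 2 - η := by linarith
        have h2 : (49 / 100 : ℝ) * n * (2 / 5 * k) ≤ (T.card : ℝ) * ((S.card : ℝ) - n / 2 - η) :=
          mul_le_mul hT1' h1 (by positivity) (Nat.cast_nonneg _)
        nlinarith
    obtain ⟨F', hVF, hFk, hFe⟩ := hDM (Fin n) D S T {f0.1, f0.2} ((n : ℝ) / 128) (k - 1)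
      (by positivity) hloop
      (fun v hv => by
        have := hflex'.1 v hv
        rw [Fintype.card_fin] at this
        linarith)
      (fun v hv => by
        have := hflex'.2 v hv
        rw [Fintype.card_fin] at this
        linarith)
      (by
        have hZ : (({f0.1, f0.2} : Finset (Fin n)).card : ℝ) ≤ 2 := by
          exact_mod_cast Finset.card_le_two
        have hk' : ((k - 1 : ℕ) : ℝ) = k - 1 := by
          rw [Nat.cast_sub hk1, Nat.cast_one]
        rw [hk']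
        have hn0 : (0 : ℝ) ≤ 2 * ((n : ℝ) / 128) := by positivity
        calc (2 * ((k : ℝ) - 1) + (({f0.1, f0.2} : Finset (Fin n)).card : ℝ)) *
              (2 * ((n : ℝ) / 128)) ≤ (2 * ((k : ℝ) - 1) + 2) * (2 * ((n : ℝ) / 128)) :=
              mul_le_mul_of_nonneg_right (by linarith) hn0
          _ = (k : ℝ) * n / 32 := by ring
          _ < _ := hee)
    have hnot : ∀ e ∈ F', e.1 ≠ f0.1 ∧ e.1 ≠ f0.2 ∧ e.2 ≠ f0.1 ∧ e.2 ≠ f0.2 := by
      intro e he
      obtain ⟨-, -, -, h1, h2⟩ := hFe e he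
      simp only [Finset.mem_insert, Finset.mem_singleton, not_or] at h1 h2
      exact ⟨h1.1, h1.2, h2.1, h2.2⟩
    have hf0F : f0 ∉ F' := fun h => (hnot f0 h).1 rfl
    have hf0e := hMe f0 hf0
    refine last_step hN0 D _ S T (insert f0 F') hnN (fun u v h => Or.inl h) hStr ?_ ?_ ?_ ?_ ?_
    · refine ⟨fun e he => ?_, fun e he f hf hne => ?_⟩
      · rcases Finset.mem_insert.1 he with h | h
        · rw [h]
          exact hVM.1 f0 hf0
        · exact hVF.1 e h
      · rcases Finset.mem_insert.1 he with h | h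
        · rcases Finset.mem_insert.1 hf with h' | h'
          · exact absurd (h.trans h'.symm) hne
          · rw [h]
            obtain ⟨a, b, c, d⟩ := hnot f h'
            exact ⟨a.symm, c.symm, b.symm, d.symm⟩
        · rcases Finset.mem_insert.1 hf with h' | h'
          · rw [h']
            exact hnot e h
          · exact hVF.2 e h f h' hne
    · intro e he
      rcases Finset.mem_insert.1 he with h | h
      · rw [h]
        exact Or.inr (hMR hf0)
      · exact Or.inl (hFe e h).1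
    · intro e he
      rcases Finset.mem_insert.1 he with h | h
      · rw [h]
        exact ⟨(Finset.mem_sdiff.1 hf0e.1).1, (Finset.mem_sdiff.1 hf0e.2).1⟩
      · exact ⟨(hFe e h).2.1, (hFe e h).2.2.1⟩
    · rw [Finset.card_insert_of_notMem hf0F, hFk]
      omega
    · exact ⟨f0, Finset.mem_insert_self _ _, (Finset.mem_sdiff.1 hf0e.1).2,
        (Finset.mem_sdiff.1 hf0e.2).2⟩

end Pool.Agent.W439.DH
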